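import Pool.Agent.N439.CT.Main
import Pool.Agent.N439.OD.Dirac

/-!
# Arcs and non-adjacent pairs with colours: the exact bound

`R` is an oriented graph whose arcs have colours (`col`) and whose non-adjacent pairs have colours
(`χ`). A triple is counted if one of its vertices sends arcs of the same colour to the two others, or
if it contains no arc and its three pairs have the same colour. If every four vertices of `S`
contain a counted triple, then the non-adjacent pairs of every colour form a chordal graph, the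
elimination orders turn `R` into an arc-coloured tournament, and the exact bound for tournaments
applies.
-/

set_option autoImplicit false
open Finset
open scoped Classical

namespace Pool.Agent.Run7.h804.MC

variable {n : ℕ}

/-- one of the vertices of `e` sends arcs of the same colour to two others, or `e` contains no arc
and all its pairs have the same colour -/
def Tri (R : Fin n → Fin n → Prop) (col χ : Fin n → Fin n → ℕ) (e : Finset (Fin n)) : Prop :=
  (∃ x ∈ e, ∃ y ∈ e, ∃ z ∈ e, y ≠ z ∧ R x y ∧ R x z ∧ col x y = col x z) ∨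
    ∃ c : ℕ, ∀ x ∈ e, ∀ y ∈ e, x ≠ y → ¬ R x y ∧ χ x y = c

/-- the counted triples -/
noncomputable def T (R : Fin n → Fin n → Prop) (col χ : Fin n → Fin n → ℕ) :
    Finset (Finset (Fin n)) :=
  (univ.powersetCard 3).filter (Tri R col χ)

theorem mem_T {R : Fin n → Fin n → Prop} {col χ : Fin n → Fin n → ℕ} {e : Finset (Fin n)} :
    e ∈ T R col χ ↔ e.card = 3 ∧ Tri R col χ e := by
  unfold T
  rw [mem_filter, mem_powersetCard]
  simp

/-- the graph of all pairs but those of the colour `c`, oriented -/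
noncomputable def Rc (R : Fin n → Fin n → Prop) (χ : Fin n → Fin n → ℕ) (c : ℕ) (x y : ℕ) : Bool :=
  decide (∃ a b : Fin n, (a : ℕ) = x ∧ (b : ℕ) = y ∧
    (R a b ∨ (¬ R a b ∧ ¬ R b a ∧ χ a b ≠ c ∧ a < b)))

theorem Rc_iff {R : Fin n → Fin n → Prop} {χ : Fin n → Fin n → ℕ} {c : ℕ} {a b : Fin n} :
    Rc R χ c a b = true ↔ (R a b ∨ (¬ R a b ∧ ¬ R b a ∧ χ a b ≠ c ∧ a < b)) := by
  unfold Rc
  rw [decide_eq_true_eq]
  constructor
  · rintro ⟨a', b', h1, h2, h⟩
    rw [Fin.ext h1, Fin.ext h2] at h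
    exact h
  · intro h
    exact ⟨a, b, rfl, rfl, h⟩

theorem Rc_ori {R : Fin n → Fin n → Prop} (hR : ∀ x y, R x y → ¬ R y x)
    (χ : Fin n → Fin n → ℕ) (c : ℕ) (x y : ℕ) (h : Rc R χ c x y = true) : Rc R χ c y x = false := by
  have h' := h
  unfold Rc at h'
  rw [decide_eq_true_eq] at h'
  obtain ⟨a, b, rfl, rfl, h1⟩ := h'
  rw [← Bool.not_eq_true, Rc_iff]
  rcases h1 with h1 | h1
  · rintro (h2 | h2)
    · exact hR a b h1 h2
    · exact h2.2.1 h1
  · rintro (h2 | h2)
    · exact h1.2.1 h2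
    · exact absurd (h1.2.2.2.trans h2.2.2.2) (lt_irrefl _)

theorem C_pair {R : Fin n → Fin n → Prop} {χ : Fin n → Fin n → ℕ} (hs : ∀ x y, χ x y = χ y x)
    {c : ℕ} {a b : Fin n} :
    Pool.Agent.TH173.TO.C (Pool.Agent.N439.OD.ad (Rc R χ c)) a b ↔
      a ≠ b ∧ ¬ R a b ∧ ¬ R b a ∧ χ a b = c := by
  rw [Pool.Agent.N439.OD.C_iff, ← Bool.not_eq_true, ← Bool.not_eq_true, Rc_iff, Rc_iff]
  constructor
  · rintro ⟨h1, h2, h3⟩
    have hab : a ≠ b := fun h => h1 (congrArg _ h)
    have h4 : ¬ R a b := fun h => h2 (Or.inl h)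
    have h5 : ¬ R b a := fun h => h3 (Or.inl h)
    refine ⟨hab, h4, h5, ?_⟩
    by_contra hc
    rcases lt_or_gt_of_ne hab with h | h
    · exact h2 (Or.inr ⟨h4, h5, hc, h⟩)
    · exact h3 (Or.inr ⟨h5, h4, by rw [hs b a]; exact hc, h⟩)
  · rintro ⟨h1, h2, h3, h4⟩
    refine ⟨fun h => h1 (Fin.ext h), ?_, ?_⟩
    · rintro (h | h)
      · exact h2 h
      · exact h.2.2.1 h4
    · rintro (h | h)
      · exact h3 h
      · exact h.2.2.1 (by rw [hs b a]; exact h4)

/-- the set `S` as a set of natural numbers -/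
def nat (S : Finset (Fin n)) : Finset ℕ := S.map Fin.valEmbedding

theorem mem_nat {S : Finset (Fin n)} {x : Fin n} : (x : ℕ) ∈ nat S ↔ x ∈ S := by
  unfold nat
  rw [mem_map]
  constructor
  · rintro ⟨y, hy, h⟩
    rw [← Fin.ext h]
    exact hy
  · intro h
    exact ⟨x, h, rfl⟩

theorem of_mem_nat {S : Finset (Fin n)} {x : ℕ} (h : x ∈ nat S) : ∃ a ∈ S, (a : ℕ) = x := by
  unfold nat at h
  rw [mem_map] at h
  exact h

theorem cv {R : Fin n → Fin n → Prop} (hR : ∀ x y, R x y → ¬ R y x) {col χ : Fin n → Fin n → ℕ}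
    (hs : ∀ x y, χ x y = χ y x) {S : Finset (Fin n)}
    (hcov : ∀ Q ⊆ S, Q.card = 4 → ∃ e ⊆ Q, e.card = 3 ∧ Tri R col χ e) (c : ℕ) :
    Pool.Agent.N439.OD.Cv (Rc R χ c) (nat S) where
  ori := Rc_ori hR χ c
  cov := by
    intro Q hQ hQ4
    set Q' : Finset (Fin n) := univ.filter fun x => (x : ℕ) ∈ Q with hQ'
    have hQe : nat Q' = Q := by
      ext x
      constructor
      · intro h
        obtain ⟨a, ha, rfl⟩ := of_mem_nat h
        exact (mem_filter.1 ha).2
      · intro h
        obtain ⟨a, ha, rfl⟩ := of_mem_nat (hQ h)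
        rw [mem_nat]
        exact mem_filter.2 ⟨mem_univ _, h⟩
    have hQS : Q' ⊆ S := by
      intro x hx
      rw [← mem_nat]
      exact hQ (mem_filter.1 hx).2
    have hQc : Q'.card = 4 := by
      rw [← hQ4, ← hQe]
      unfold nat
      rw [card_map]
    have hin : ∀ x ∈ Q', (x : ℕ) ∈ Q := fun x hx => (mem_filter.1 hx).2
    obtain ⟨e, heQ, he3, he⟩ := hcov Q' hQS hQc
    rcases he with ⟨x, hx, y, hy, z, hz, hyz, h1, h2, _⟩ | ⟨c', hc⟩
    · left
      refine ⟨x, hin x (heQ hx), ?_⟩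
      apply Nat.succ_le_of_lt
      rw [one_lt_card]
      refine ⟨y, ?_, z, ?_, fun h => hyz (Fin.ext h)⟩
      · rw [Pool.Agent.N439.OD.mem_ol]
        exact ⟨hin y (heQ hy), Rc_iff.2 (Or.inl h1)⟩
      · rw [Pool.Agent.N439.OD.mem_ol]
        exact ⟨hin z (heQ hz), Rc_iff.2 (Or.inl h2)⟩
    · by_cases hcc : c' = c
      · right
        obtain ⟨x, y, z, hxy, hxz, hyz, rfl⟩ := card_eq_three.1 he3
        have hx : x ∈ ({x, y, z} : Finset (Fin n)) := by simp
        have hy : y ∈ ({x, y, z} : Finset (Fin n)) := by simp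
        have hz : z ∈ ({x, y, z} : Finset (Fin n)) := by simp
        refine ⟨x, hin x (heQ hx), y, hin y (heQ hy), z, hin z (heQ hz), ?_, ?_, ?_⟩
        · rw [C_pair hs, ← hcc]
          exact ⟨hxy, (hc x hx y hy hxy).1, (hc y hy x hx hxy.symm).1, (hc x hx y hy hxy).2⟩
        · rw [C_pair hs, ← hcc]
          exact ⟨hxz, (hc x hx z hz hxz).1, (hc z hz x hx hxz.symm).1, (hc x hx z hz hxz).2⟩
        · rw [C_pair hs, ← hcc]
          exact ⟨hyz, (hc y hy z hz hyz).1, (hc z hz y hy hyz.symm).1, (hc y hy z hz hyz).2⟩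
      · left
        have hne : e.Nonempty := by
          rw [← card_pos, he3]
          norm_num
        obtain ⟨v, hv, hmin⟩ := exists_min_image e (fun x => x) hne
        have h2 : (e.erase v).card = 2 := by rw [card_erase_of_mem hv, he3]
        obtain ⟨y, z, hyz, hyze⟩ := card_eq_two.1 h2
        have hy : y ∈ e.erase v := by rw [hyze]; simp
        have hz : z ∈ e.erase v := by rw [hyze]; simp
        refine ⟨v, hin v (heQ hv), ?_⟩
        apply Nat.succ_le_of_lt
        rw [one_lt_card]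
        have key : ∀ u ∈ e.erase v, (u : ℕ) ∈ Pool.Agent.N439.OD.ol (Rc R χ c) Q v := by
          intro u hu
          have huv := (mem_erase.1 hu).1
          have hue := (mem_erase.1 hu).2
          rw [Pool.Agent.N439.OD.mem_ol]
          refine ⟨hin u (heQ hue), Rc_iff.2 (Or.inr ⟨(hc v hv u hue huv.symm).1,
            (hc u hue v hv huv).1, ?_, ?_⟩)⟩
          · rw [(hc v hv u hue huv.symm).2]
            exact hcc
          · exact lt_of_le_of_ne (hmin u hue) huv.symm
        exact ⟨y, key y hy, z, key z hz, fun h => hyz (Fin.ext h)⟩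

/-- **The exact bound.** -/
theorem exact_on {R : Fin n → Fin n → Prop} (hR : ∀ x y, R x y → ¬ R y x)
    {col χ : Fin n → Fin n → ℕ} (hs : ∀ x y, χ x y = χ y x) {S : Finset (Fin n)}
    (hcov : ∀ Q ⊆ S, Q.card = 4 → ∃ e ⊆ Q, e.card = 3 ∧ Tri R col χ e) :
    Pool.Agent.N439.CT.turan S.card ≤ ((T R col χ).filter fun e => e ⊆ S).card := by
  rcases S.eq_empty_or_nonempty with rfl | hne
  · simp [Pool.Agent.N439.CT.turan]
  have hpeo : ∀ c : ℕ, ∃ σ : ℕ → ℕ,
      Pool.Agent.TH173.TO.Peo (Pool.Agent.N439.OD.ad (Rc R χ c)) σ (nat S) := by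
    intro c
    obtain ⟨t, ht⟩ := hne
    have hcard : (nat S).card = (S.card - 1) + 1 := by
      have : 0 < S.card := card_pos.2 ⟨t, ht⟩
      unfold nat
      rw [card_map]
      omega
    obtain ⟨σ, hσ, _⟩ := Pool.Agent.N439.OD.exists_last (S.card - 1) (nat S) hcard
      (cv hR hs hcov c) t (mem_nat.2 ht)
    exact ⟨σ, hσ⟩
  choose σ hσ using hpeo
  -- the tournament
  set R' : Fin n → Fin n → Bool := fun x y => decide (R x y ∨ (x ≠ y ∧ ¬ R x y ∧ ¬ R y x ∧
    (σ (χ x y) x < σ (χ x y) y ∨ (σ (χ x y) x = σ (χ x y) y ∧ x < y)))) with hR'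
  set col' : Fin n → Fin n → ℕ := fun x y => if R x y then 2 * col x y + 1 else 2 * χ x y
    with hcol'
  have r1 : ∀ x y, R' x y = true ↔ (R x y ∨ (x ≠ y ∧ ¬ R x y ∧ ¬ R y x ∧
    (σ (χ x y) x < σ (χ x y) y ∨ (σ (χ x y) x = σ (χ x y) y ∧ x < y)))) := by
    intro x y
    rw [hR']
    simp only [decide_eq_true_eq]
  have k1 : ∀ x y, R' x y = true → R' y x = false := by
    intro x y h
    rw [← Bool.not_eq_true, r1, hs y x]
    rw [r1] at h
    rcases h with h | ⟨_, h1, h2, h3⟩
    · rintro (h' | h')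
      · exact hR x y h h'
      · exact h'.2.2.1 h
    · rintro (h' | ⟨_, _, _, h4⟩)
      · exact h2 h'
      · rcases h3 with h3 | h3
        · rcases h4 with h4 | h4
          · omega
          · omega
        · rcases h4 with h4 | h4
          · omega
          · exact absurd (h3.2.trans h4.2) (lt_irrefl _)
  have k2 : ∀ x y, x ≠ y → R' x y = true ∨ R' y x = true := by
    intro x y hxy
    rw [r1, r1, hs y x]
    by_cases h1 : R x y
    · exact Or.inl (Or.inl h1)
    · by_cases h2 : R y x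
      · exact Or.inr (Or.inl h2)
      · rcases lt_trichotomy (σ (χ x y) x) (σ (χ x y) y) with h3 | h3 | h3
        · exact Or.inl (Or.inr ⟨hxy, h1, h2, Or.inl h3⟩)
        · rcases lt_or_gt_of_ne hxy with h4 | h4
          · exact Or.inl (Or.inr ⟨hxy, h1, h2, Or.inr ⟨h3, h4⟩⟩)
          · exact Or.inr (Or.inr ⟨hxy.symm, h2, h1, Or.inr ⟨h3.symm, h4⟩⟩)
        · exact Or.inr (Or.inr ⟨hxy.symm, h2, h1, Or.inl h3⟩)
  have k3 : ∀ x y, col' x y < (univ.sup fun p : Fin n × Fin n => col' p.1 p.2) + 2 := by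
    intro x y
    have := le_sup (f := fun p : Fin n × Fin n => col' p.1 p.2) (mem_univ (x, y))
    simp only at this
    omega
  have inj : ∀ c, ∀ x ∈ S, ∀ y ∈ S, σ c x = σ c y → x = y := by
    intro c x hx y hy h
    exact Fin.ext ((hσ c).inj x (mem_nat.2 hx) y (mem_nat.2 hy) h)
  have k4 : Pool.Agent.N439.CT.Cov R' col' S := by
    intro Q hQ hQ4
    obtain ⟨e, heQ, he3, he⟩ := hcov Q hQ hQ4
    rcases he with ⟨x, hx, y, hy, z, hz, hyz, h1, h2, h3⟩ | ⟨c, hc⟩
    · refine ⟨x, heQ hx, y, heQ hy, z, heQ hz, hyz, (r1 x y).2 (Or.inl h1),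
        (r1 x z).2 (Or.inl h2), ?_⟩
      rw [hcol']
      simp only
      rw [if_pos h1, if_pos h2, h3]
    · have hne' : e.Nonempty := by
        rw [← card_pos, he3]
        norm_num
      obtain ⟨v, hv, hmin⟩ := exists_min_image e (fun x => σ c x) hne'
      have h2 : (e.erase v).card = 2 := by rw [card_erase_of_mem hv, he3]
      obtain ⟨y, z, hyz, hyze⟩ := card_eq_two.1 h2
      have hy : y ∈ e.erase v := by rw [hyze]; simp
      have hz : z ∈ e.erase v := by rw [hyze]; simp
      have key : ∀ u ∈ e.erase v, R' v u = true ∧ col' v u = 2 * c := by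
        intro u hu
        have huv := (mem_erase.1 hu).1
        have hue := (mem_erase.1 hu).2
        have a1 := hc v hv u hue huv.symm
        have a2 := hc u hue v hv huv
        constructor
        · rw [r1, a1.2]
          refine Or.inr ⟨huv.symm, a1.1, a2.1, Or.inl ?_⟩
          refine lt_of_le_of_ne (hmin u hue) ?_
          intro h
          exact huv (inj c v (hQ (heQ hv)) u (hQ (heQ hue)) h).symm
        · rw [hcol']
          simp only
          rw [if_neg a1.1, a1.2]
      exact ⟨v, heQ hv, y, heQ (mem_erase.1 hy).2, z, heQ (mem_erase.1 hz).2, hyz, (key y hy).1,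
        (key z hz).1, by rw [(key y hy).2, (key z hz).2]⟩
  have k5 := Pool.Agent.N439.CT.tournament k1 k2 _ k3 k4
  refine k5.trans (card_le_card ?_)
  intro e he
  rw [Pool.Agent.N439.CT.mem_ch, mem_powersetCard] at he
  obtain ⟨⟨heS, he3⟩, x, hx, y, hy, z, hz, hyz, h1, h2, h3⟩ := he
  rw [mem_filter, mem_T]
  refine ⟨⟨he3, ?_⟩, heS⟩
  rw [r1] at h1 h2
  rw [hcol'] at h3
  simp only at h3
  by_cases d1 : R x y
  · by_cases d2 : R x z
    · rw [if_pos d1, if_pos d2] at h3
      exact Or.inl ⟨x, hx, y, hy, z, hz, hyz, d1, d2, by omega⟩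
    · rw [if_pos d1, if_neg d2] at h3
      omega
  · by_cases d2 : R x z
    · rw [if_neg d1, if_pos d2] at h3
      omega
    · rw [if_neg d1, if_neg d2] at h3
      right
      have hc : χ x y = χ x z := by omega
      rcases h1 with h1 | ⟨hxy, _, h1, h4⟩
      · exact absurd h1 d1
      rcases h2 with h2 | ⟨hxz, _, h2, h5⟩
      · exact absurd h2 d2
      have h6 : σ (χ x y) x < σ (χ x y) y := by
        rcases h4 with h4 | h4
        · exact h4
        · exact absurd (inj _ x (heS hx) y (heS hy) h4.1) hxy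
      have h7 : σ (χ x y) x < σ (χ x y) z := by
        rw [hc]
        rcases h5 with h5 | h5
        · exact h5
        · exact absurd (inj _ x (heS hx) z (heS hz) h5.1) hxz
      have h8 := (hσ (χ x y)).clq x (mem_nat.2 (heS hx)) y (mem_nat.2 (heS hy)) z
        (mem_nat.2 (heS hz)) ((C_pair hs).2 ⟨hxy.symm, h1, d1, hs y x⟩)
        ((C_pair hs).2 ⟨hxz.symm, h2, d2, by rw [hs z x, hc]⟩) h6 h7 (fun h => hyz (Fin.ext h))
      rw [C_pair hs] at h8
      have hexyz : e = {x, y, z} := by
        symm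
        apply eq_of_subset_of_card_le
        · intro v hv
          simp only [mem_insert, mem_singleton] at hv
          rcases hv with rfl | rfl | rfl
          · exact hx
          · exact hy
          · exact hz
        · rw [he3, card_eq_three.2 ⟨x, y, z, hxy, hxz, hyz, rfl⟩]
      refine ⟨χ x y, ?_⟩
      intro a ha b hb hab
      rw [hexyz] at ha hb
      simp only [mem_insert, mem_singleton] at ha hb
      rcases ha with rfl | rfl | rfl <;> rcases hb with rfl | rfl | rfl
      · exact absurd rfl hab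
      · exact ⟨d1, rfl⟩
      · exact ⟨d2, hc.symm⟩
      · exact ⟨h1, hs _ _⟩
      · exact absurd rfl hab
      · exact ⟨h8.2.1, h8.2.2.2⟩
      · exact ⟨h2, by rw [hs, hc]⟩
      · exact ⟨h8.2.2.1, by rw [hs]; exact h8.2.2.2⟩
      · exact absurd rfl hab

end Pool.Agent.Run7.h804.MC
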