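import Pool.Agent.Run7.h804.MC.Core
import Pool.Agent.Run7.h804.RT.Upper

/-!
# Three kinds of colours

`R` is an oriented graph whose arcs have colours (`col`) and whose non-adjacent pairs have colours
(`χ`); the colours in `N` are the cherry colours. A triple is counted if one of its vertices sends
arcs of the same colour to the two others, or if it contains no arc and its three pairs have the same
colour, or if two of its pairs are non-adjacent pairs of the same cherry colour. If the classes of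
the cherry colours contain no induced `P_4` and `C_4` they can be oriented, so that the exact bound
of `Core` applies; few induced `P_4` and `C_4` and few sets of four vertices without a counted triple
are permitted for the asymptotic bound.
-/

set_option autoImplicit false
open Finset
open scoped Classical

namespace Pool.Agent.Run7.h804.MC

variable {n : ℕ}

/-- `x`, `y` are non-adjacent and their colour is a cherry colour -/
def NP (R : Fin n → Fin n → Prop) (χ : Fin n → Fin n → ℕ) (N : Set ℕ) (x y : Fin n) : Prop :=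
  x ≠ y ∧ ¬ R x y ∧ ¬ R y x ∧ χ x y ∈ N

theorem NP.symm {R : Fin n → Fin n → Prop} {χ : Fin n → Fin n → ℕ} (hs : ∀ x y, χ x y = χ y x)
    {N : Set ℕ} {x y : Fin n} (h : NP R χ N x y) : NP R χ N y x :=
  ⟨h.1.symm, h.2.2.1, h.2.1, by rw [hs y x]; exact h.2.2.2⟩

/-- the counted triples -/
def Tri3 (R : Fin n → Fin n → Prop) (col χ : Fin n → Fin n → ℕ) (N : Set ℕ)
    (e : Finset (Fin n)) : Prop :=
  Tri R col χ e ∨ ∃ x ∈ e, ∃ y ∈ e, ∃ z ∈ e, y ≠ z ∧ NP R χ N x y ∧ NP R χ N x z ∧ χ x y = χ x z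

noncomputable def T3 (R : Fin n → Fin n → Prop) (col χ : Fin n → Fin n → ℕ) (N : Set ℕ) :
    Finset (Finset (Fin n)) :=
  (univ.powersetCard 3).filter (Tri3 R col χ N)

theorem mem_T3 {R : Fin n → Fin n → Prop} {col χ : Fin n → Fin n → ℕ} {N : Set ℕ}
    {e : Finset (Fin n)} : e ∈ T3 R col χ N ↔ e.card = 3 ∧ Tri3 R col χ N e := by
  unfold T3
  rw [mem_filter, mem_powersetCard]
  simp

/-- the colouring of all pairs in which only the pairs of the cherry colours keep their colour, and
all others have private colours -/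
noncomputable def aux (R : Fin n → Fin n → Prop) (χ : Fin n → Fin n → ℕ) (N : Set ℕ)
    (x y : Fin n) : ℕ :=
  if NP R χ N x y then 2 * χ x y else 2 * Nat.pair (min (x : ℕ) y) (max (x : ℕ) y) + 1

variable {R : Fin n → Fin n → Prop} {col χ : Fin n → Fin n → ℕ} {N : Set ℕ}

theorem aux_symm (hs : ∀ x y, χ x y = χ y x) (x y : Fin n) : aux R χ N x y = aux R χ N y x := by
  unfold aux
  by_cases h : NP R χ N x y
  · rw [if_pos h, if_pos (h.symm hs), hs x y]
  · rw [if_neg h, if_neg (fun h' => h (h'.symm hs)), min_comm, max_comm]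

theorem aux_pos {x y : Fin n} (h : NP R χ N x y) : aux R χ N x y = 2 * χ x y := if_pos h

theorem aux_eq {x y z : Fin n} (hyz : y ≠ z)
    (h : aux R χ N x y = aux R χ N x z) : NP R χ N x y ∧ NP R χ N x z ∧ χ x y = χ x z := by
  unfold aux at h
  by_cases h1 : NP R χ N x y
  · by_cases h2 : NP R χ N x z
    · rw [if_pos h1, if_pos h2] at h
      exact ⟨h1, h2, by omega⟩
    · rw [if_pos h1, if_neg h2] at h
      omega
  · by_cases h2 : NP R χ N x z
    · rw [if_neg h1, if_pos h2] at h
      omega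
    · rw [if_neg h1, if_neg h2] at h
      exfalso
      have h3 : Nat.pair (min (x : ℕ) y) (max (x : ℕ) y) =
          Nat.pair (min (x : ℕ) z) (max (x : ℕ) z) := by omega
      rw [Nat.pair_eq_pair] at h3
      exact hyz (Fin.ext (by omega))

theorem aux_eq' (hs : ∀ x y, χ x y = χ y x) {x y z : Fin n} (hxz : x ≠ z)
    (h : aux R χ N x y = aux R χ N y z) : NP R χ N x y ∧ NP R χ N y z ∧ χ x y = χ y z := by
  rw [aux_symm hs x y] at h
  obtain ⟨h1, h2, h3⟩ := aux_eq hxz h
  exact ⟨h1.symm hs, h2, by rw [hs x y]; exact h3⟩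

/-- the induced `P_4` and `C_4` of the cherry colours: quadruples `((a, b), (c, d))` of different
vertices such that `ab`, `bc`, `cd` are non-adjacent pairs of the same cherry colour and neither
`ac` nor `bd` is one of this colour -/
noncomputable def paths (R : Fin n → Fin n → Prop) (χ : Fin n → Fin n → ℕ) (N : Set ℕ) :
    Finset ((Fin n × Fin n) × (Fin n × Fin n)) :=
  univ.filter fun p => p.1.1 ≠ p.2.1 ∧ p.1.1 ≠ p.2.2 ∧ p.1.2 ≠ p.2.2 ∧
    NP R χ N p.1.1 p.1.2 ∧ NP R χ N p.1.2 p.2.1 ∧ NP R χ N p.2.1 p.2.2 ∧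
    χ p.1.1 p.1.2 = χ p.1.2 p.2.1 ∧ χ p.2.1 p.2.2 = χ p.1.2 p.2.1 ∧
    ¬ (NP R χ N p.1.1 p.2.1 ∧ χ p.1.1 p.2.1 = χ p.1.2 p.2.1) ∧
    ¬ (NP R χ N p.1.2 p.2.2 ∧ χ p.1.2 p.2.2 = χ p.1.2 p.2.1)

theorem paths_sub (hs : ∀ x y, χ x y = χ y x) : RT.monoPaths (aux R χ N) ⊆ paths R χ N := by
  rintro ⟨⟨a, b⟩, ⟨c, d⟩⟩ h
  rw [RT.mem_monoPaths] at h
  obtain ⟨hab, hac, had, hbc, hbd, hcd, h1, h2, h3, h4⟩ := h
  obtain ⟨p1, p2, p3⟩ := aux_eq' hs hac h1
  obtain ⟨q1, q2, q3⟩ := aux_eq' hs hbd h2.symm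
  unfold paths
  rw [mem_filter]
  refine ⟨mem_univ _, hac, had, hbd, p1, p2, q2, p3, q3.symm, ?_, ?_⟩
  · rintro ⟨r1, r2⟩
    apply h3
    rw [aux_pos r1, aux_pos p2]
    simp only at r2
    rw [r2]
  · rintro ⟨r1, r2⟩
    apply h4
    rw [aux_pos r1, aux_pos p2]
    simp only at r2
    rw [r2]

/-- the oriented graph with the pairs of the cherry colours as new arcs -/
def R2 (R : Fin n → Fin n → Prop) (χ : Fin n → Fin n → ℕ) (N : Set ℕ) (x y : Fin n) : Prop :=
  R x y ∨ (NP R χ N x y ∧ RT.R (aux R χ N) x y = true)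

/-- the colours of its arcs -/
noncomputable def col2 (R : Fin n → Fin n → Prop) (col χ : Fin n → Fin n → ℕ) (x y : Fin n) : ℕ :=
  if R x y then 2 * col x y else 2 * χ x y + 1

theorem R2_ori (hR : ∀ x y, R x y → ¬ R y x) (hs : ∀ x y, χ x y = χ y x) (x y : Fin n)
    (h : R2 R χ N x y) : ¬ R2 R χ N y x := by
  rcases h with h | ⟨h1, h2⟩
  · rintro (h' | h')
    · exact hR x y h h'
    · exact h'.1.2.2.1 h
  · rintro (h' | h')
    · exact h1.2.2.1 h'
    · have := RT.R_asymm (aux_symm hs) x y h2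
      rw [h'.2] at this
      cases this

/-- the triples counted for `R2` are counted -/
theorem tri_of (e : Finset (Fin n)) (h : Tri (R2 R χ N) (col2 R col χ) χ e) :
    Tri3 R col χ N e := by
  rcases h with ⟨x, hx, y, hy, z, hz, hyz, h1, h2, h3⟩ | ⟨c, hc⟩
  · unfold col2 at h3
    rcases h1 with h1 | h1
    · rcases h2 with h2 | h2
      · rw [if_pos h1, if_pos h2] at h3
        exact Or.inl (Or.inl ⟨x, hx, y, hy, z, hz, hyz, h1, h2, by omega⟩)
      · rw [if_pos h1, if_neg h2.1.2.1] at h3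
        omega
    · rcases h2 with h2 | h2
      · rw [if_neg h1.1.2.1, if_pos h2] at h3
        omega
      · rw [if_neg h1.1.2.1, if_neg h2.1.2.1] at h3
        exact Or.inr ⟨x, hx, y, hy, z, hz, hyz, h1.1, h2.1, by omega⟩
  · left
    right
    exact ⟨c, fun x hx y hy hxy => ⟨fun h => (hc x hx y hy hxy).1 (Or.inl h), (hc x hx y hy hxy).2⟩⟩

/-- a counted triple is counted for `R2` or contains a lost cherry -/
theorem tri_to (hs : ∀ x y, χ x y = χ y x) (e : Finset (Fin n)) (he : e.card = 3)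
    (h : Tri3 R col χ N e) : Tri (R2 R χ N) (col2 R col χ) χ e ∨
      ∃ x ∈ e, ∃ y ∈ e, ∃ z ∈ e, ((x, y), z) ∈ RT.lost (aux R χ N) := by
  have key : (∃ x ∈ e, ∃ y ∈ e, ∃ z ∈ e, y ≠ z ∧ NP R χ N x y ∧ NP R χ N x z ∧ χ x y = χ x z) →
      Tri (R2 R χ N) (col2 R col χ) χ e ∨
      ∃ x ∈ e, ∃ y ∈ e, ∃ z ∈ e, ((x, y), z) ∈ RT.lost (aux R χ N) := by
    rintro ⟨x, hx, y, hy, z, hz, hyz, h1, h2, h3⟩
    have hp : ¬ RT.ProperOn (aux R χ N) e := by
      intro hp
      apply hp x hx y hy z hz h1.1 h2.1 hyz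
      rw [aux_pos h1, aux_pos h2, h3]
    rcases RT.cherry (aux_symm hs) hp with ⟨x, hx, y, hy, z, hz, hyz, h1, h2, h3⟩ | h
    · left
      left
      obtain ⟨p1, p2, p3⟩ := aux_eq hyz h3
      refine ⟨x, hx, y, hy, z, hz, hyz, Or.inr ⟨p1, h1⟩, Or.inr ⟨p2, h2⟩, ?_⟩
      unfold col2
      rw [if_neg p1.2.1, if_neg p2.2.1, p3]
    · exact Or.inr h
  rcases h with (⟨x, hx, y, hy, z, hz, hyz, h1, h2, h3⟩ | ⟨c, hc⟩) | h
  · left
    left
    refine ⟨x, hx, y, hy, z, hz, hyz, Or.inl h1, Or.inl h2, ?_⟩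
    unfold col2
    rw [if_pos h1, if_pos h2, h3]
  · by_cases hcN : c ∈ N
    · apply key
      obtain ⟨x, y, z, hxy, hxz, hyz, rfl⟩ := card_eq_three.1 he
      have hx : x ∈ ({x, y, z} : Finset (Fin n)) := by simp
      have hy : y ∈ ({x, y, z} : Finset (Fin n)) := by simp
      have hz : z ∈ ({x, y, z} : Finset (Fin n)) := by simp
      have a1 := hc x hx y hy hxy
      have a2 := hc y hy x hx hxy.symm
      have a3 := hc x hx z hz hxz
      have a4 := hc z hz x hx hxz.symm
      exact ⟨x, hx, y, hy, z, hz, hyz, ⟨hxy, a1.1, a2.1, by rw [a1.2]; exact hcN⟩,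
        ⟨hxz, a3.1, a4.1, by rw [a3.2]; exact hcN⟩, by rw [a1.2, a3.2]⟩
    · left
      right
      refine ⟨c, fun x hx y hy hxy => ⟨?_, (hc x hx y hy hxy).2⟩⟩
      rintro (h | h)
      · exact (hc x hx y hy hxy).1 h
      · apply hcN
        rw [← (hc x hx y hy hxy).2]
        exact h.1.2.2.2
  · exact key h

/-- the sets of four vertices without a triple counted for `R2` -/
noncomputable def bad (R : Fin n → Fin n → Prop) (col χ : Fin n → Fin n → ℕ) (N : Set ℕ) :
    Finset (Finset (Fin n)) :=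
  (univ.powersetCard 4).filter fun Q : Finset (Fin n) =>
    ¬ ∃ e ⊆ Q, e.card = 3 ∧ Tri (R2 R χ N) (col2 R col χ) χ e

/-- the sets of four vertices without a counted triple -/
noncomputable def unc (R : Fin n → Fin n → Prop) (col χ : Fin n → Fin n → ℕ) (N : Set ℕ) :
    Finset (Finset (Fin n)) :=
  (univ.powersetCard 4).filter fun Q : Finset (Fin n) =>
    ¬ ∃ e ⊆ Q, e.card = 3 ∧ Tri3 R col χ N e

theorem mem_unc {Q : Finset (Fin n)} : Q ∈ unc R col χ N ↔ Q.card = 4 ∧
    ¬ ∃ e ⊆ Q, e.card = 3 ∧ Tri3 R col χ N e := by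
  unfold unc
  rw [mem_filter, mem_powersetCard]
  simp only [subset_univ, true_and]

theorem mem_bad {Q : Finset (Fin n)} : Q ∈ bad R col χ N ↔ Q.card = 4 ∧
    ¬ ∃ e ⊆ Q, e.card = 3 ∧ Tri (R2 R χ N) (col2 R col χ) χ e := by
  unfold bad
  rw [mem_filter, mem_powersetCard]
  simp only [subset_univ, true_and]

theorem bad_card (hs : ∀ x y, χ x y = χ y x) :
    (bad R col χ N).card ≤ (unc R col χ N).card + (RT.lost (aux R χ N)).card * n := by
  have h1 : bad R col χ N ⊆ unc R col χ N ∪
      ((RT.lost (aux R χ N)) ×ˢ (univ : Finset (Fin n))).image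
      fun p => {p.1.1.1, p.1.1.2, p.1.2, p.2} := by
    intro Q hQ
    rw [mem_bad] at hQ
    rw [mem_union, mem_unc]
    by_cases h : ∃ e ⊆ Q, e.card = 3 ∧ Tri3 R col χ N e
    · right
      obtain ⟨e, heQ, he3, he⟩ := h
      rcases tri_to hs e he3 he with h1 | ⟨x, hx, y, hy, z, hz, hl⟩
      · exact absurd ⟨e, heQ, he3, h1⟩ hQ.2
      · have hx := heQ hx
        have hy := heQ hy
        have hz := heQ hz
        have hl' := RT.mem_lost.1 hl
        have h2 : (((Q.erase x).erase y).erase z).card = 1 := by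
          rw [card_erase_of_mem, card_erase_of_mem, card_erase_of_mem hx, hQ.1]
          · exact mem_erase.2 ⟨hl'.1.symm, hy⟩
          · exact mem_erase.2 ⟨hl'.2.2.1.symm, mem_erase.2 ⟨hl'.2.1.symm, hz⟩⟩
        obtain ⟨w, hw⟩ := card_eq_one.1 h2
        rw [mem_image]
        refine ⟨(((x, y), z), w), mem_product.2 ⟨hl, mem_univ _⟩, ?_⟩
        have hw' : w ∈ ((Q.erase x).erase y).erase z := by
          rw [hw]
          simp
        simp only [mem_erase] at hw'
        apply eq_of_subset_of_card_le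
        · intro v hv
          simp only [mem_insert, mem_singleton] at hv
          rcases hv with rfl | rfl | rfl | rfl
          · exact hx
          · exact hy
          · exact hz
          · exact hw'.2.2.2
        · rw [hQ.1, card_insert_of_notMem, card_insert_of_notMem, card_insert_of_notMem,
            card_singleton]
          · simp only [mem_singleton]
            exact fun h => hw'.1 h.symm
          · simp only [mem_insert, mem_singleton]
            rintro (h | h)
            · exact hl'.2.2.1 h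
            · exact hw'.2.1 h.symm
          · simp only [mem_insert, mem_singleton]
            rintro (h | h | h)
            · exact hl'.1 h
            · exact hl'.2.1 h
            · exact hw'.2.2.1 h.symm
    · exact Or.inl ⟨hQ.1, h⟩
  refine (card_le_card h1).trans ((card_union_le _ _).trans ?_)
  refine Nat.add_le_add_left (card_image_le.trans ?_) _
  rw [card_product, card_univ, Fintype.card_fin]

/-- the exact bound on a set without bad quadruples -/
theorem on_good (hR : ∀ x y, R x y → ¬ R y x) (hs : ∀ x y, χ x y = χ y x) (S : Finset (Fin n))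
    (hS : ∀ Q ∈ bad R col χ N, ¬ Q ⊆ S) :
    Pool.Agent.N439.CT.turan S.card ≤ ((T3 R col χ N).filter fun e => e ⊆ S).card := by
  have h := exact_on (R2_ori (N := N) hR hs) (col := col2 R col χ) hs (S := S) (by
    intro Q hQ hQ4
    by_contra hcon
    exact hS Q (mem_bad.2 ⟨hQ4, hcon⟩) hQ)
  refine h.trans (card_le_card ?_)
  intro e he
  rw [mem_filter, mem_T] at he
  rw [mem_filter, mem_T3]
  exact ⟨⟨he.1.1, tri_of e he.1.2⟩, he.2⟩

/-- **The exact bound for the three kinds of colours**, on a set of vertices. -/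
theorem exact3_on (hR : ∀ x y, R x y → ¬ R y x) (hs : ∀ x y, χ x y = χ y x)
    (hp : paths R χ N = ∅) {S : Finset (Fin n)}
    (hcov : ∀ Q ⊆ S, Q.card = 4 → ∃ e ⊆ Q, e.card = 3 ∧ Tri3 R col χ N e) :
    Pool.Agent.N439.CT.turan S.card ≤ ((T3 R col χ N).filter fun e => e ⊆ S).card := by
  have h0 : (RT.lost (aux R χ N)).card = 0 := by
    have h1 := RT.lost_card (χ := aux R χ N) (aux_symm hs)
    have h2 : RT.monoPaths (aux R χ N) = ∅ := by
      rw [← subset_empty, ← hp]
      exact paths_sub hs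
    rw [h2, card_empty, mul_zero] at h1
    exact pow_eq_zero_iff (two_ne_zero) |>.1 (Nat.le_zero.1 h1)
  rw [card_eq_zero] at h0
  apply on_good hR hs S
  intro Q hQ hQS
  rw [mem_bad] at hQ
  obtain ⟨e, heQ, he3, he⟩ := hcov Q hQS hQ.1
  rcases tri_to hs e he3 he with h1 | ⟨x, _, y, _, z, _, hl⟩
  · exact hQ.2 ⟨e, heQ, he3, h1⟩
  · rw [h0] at hl
    simp at hl

/-- **The exact bound for the three kinds of colours.** -/
theorem exact3 (hR : ∀ x y, R x y → ¬ R y x) (hs : ∀ x y, χ x y = χ y x)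
    (hu : unc R col χ N = ∅) (hp : paths R χ N = ∅) :
    Pool.Agent.N439.CT.turan n ≤ (T3 R col χ N).card := by
  have h0 : (RT.lost (aux R χ N)).card = 0 := by
    have h1 := RT.lost_card (χ := aux R χ N) (aux_symm hs)
    have h2 : RT.monoPaths (aux R χ N) = ∅ := by
      rw [← subset_empty, ← hp]
      exact paths_sub hs
    rw [h2, card_empty, mul_zero] at h1
    exact pow_eq_zero_iff (two_ne_zero) |>.1 (Nat.le_zero.1 h1)
  have h1 := bad_card (R := R) (col := col) (N := N) hs
  rw [hu, card_empty, h0, zero_mul, zero_add, Nat.le_zero, card_eq_zero] at h1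
  have h2 := on_good (col := col) (N := N) hR hs univ (by
    intro Q hQ
    rw [h1] at hQ
    simp at hQ)
  rw [card_univ, Fintype.card_fin] at h2
  exact h2.trans (card_le_card (filter_subset _ _))

end Pool.Agent.Run7.h804.MC
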