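import Pool.Agent.Run7.h804.MC.Core2

/-!
# Three kinds of colours: the robust bound
-/

set_option autoImplicit false
open Finset
open scoped Classical

namespace Pool.Agent.Run7.h804.MC

/-- **Averaging**: a family `T` of triples which has Turán's number of members in every set without
bad quadruples has density at least `4/9 - ε`, if there are few bad quadruples. -/
theorem averaged (ε : ℝ) (hε : 0 < ε) : ∃ η : ℝ, 0 < η ∧ η ≤ 1 ∧ ∃ n₀ : ℕ, ∀ n : ℕ, n₀ ≤ n →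
    ∀ T bd : Finset (Finset (Fin n)), (∀ e ∈ T, e.card = 3) → (∀ Q ∈ bd, Q.card = 4) →
    (∀ S : Finset (Fin n), (∀ Q ∈ bd, ¬ Q ⊆ S) →
      Pool.Agent.N439.CT.turan S.card ≤ (T.filter fun e => e ⊆ S).card) →
    (bd.card : ℝ) ≤ 2 * η * (n : ℝ) ^ 4 →
    (4 / 9 - ε) * (n.choose 3 : ℝ) ≤ (T.card : ℝ) := by
  obtain ⟨s, hs⟩ : ∃ s : ℕ, 1 / ε ≤ s ∧ 2 ≤ s := by
    obtain ⟨s, hs⟩ := exists_nat_ge (1 / ε)
    exact ⟨s + 2, by push_cast; linarith, by omega⟩
  have hεs : 1 ≤ ε * s := by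
    have := hs.1
    rw [div_le_iff₀ hε] at this
    linarith
  set k := 3 * s with hk
  set c4 : ℝ := (k.choose 4 : ℝ) with hc4
  have hc40 : 0 < c4 := by
    rw [hc4]
    exact_mod_cast Nat.choose_pos (by omega)
  have hc30 : 0 < (k.choose 3 : ℝ) := by
    exact_mod_cast Nat.choose_pos (by omega)
  set η : ℝ := min 1 (ε / (96 * c4)) with hη
  have hη0 : 0 < η := lt_min one_pos (by positivity)
  have hη1 : η ≤ 1 := min_le_left _ _
  have hη2 : 96 * c4 * η ≤ ε := by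
    have h1 : η ≤ ε / (96 * c4) := min_le_right _ _
    rw [le_div_iff₀ (by positivity)] at h1
    linarith
  refine ⟨η, hη0, hη1, max k 12, ?_⟩
  intro n hn T bd hT hbd hgood hb
  have hnk : k ≤ n := (le_max_left _ _).trans hn
  have hn12 : 12 ≤ n := (le_max_right _ _).trans hn
  have hn0 : (0 : ℝ) < n := by
    have : 0 < n := by omega
    exact_mod_cast this
  have hmain := RT.averaging k (Pool.Agent.N439.CT.turan k) (by omega) T bd hT hbd (by
    intro S hS hg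
    have := hgood S hg
    rw [hS] at this
    exact this)
  have c3 : n.choose k * k.choose 3 = n.choose 3 * (n - 3).choose (k - 3) :=
    Nat.choose_mul (by omega)
  have c4' : n.choose k * k.choose 4 = n.choose 4 * (n - 4).choose (k - 4) :=
    Nat.choose_mul (by omega)
  have hNk : 0 < (n.choose k : ℝ) := by exact_mod_cast Nat.choose_pos hnk
  have hN3 : 0 < (n.choose 3 : ℝ) := by exact_mod_cast Nat.choose_pos (by omega)
  have hN4 : 0 < (n.choose 4 : ℝ) := by exact_mod_cast Nat.choose_pos (by omega)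
  have c3r : (n.choose k : ℝ) * (k.choose 3 : ℝ) =
      (n.choose 3 : ℝ) * ((n - 3).choose (k - 3) : ℝ) := by exact_mod_cast c3
  have c4r : (n.choose k : ℝ) * c4 =
      (n.choose 4 : ℝ) * ((n - 4).choose (k - 4) : ℝ) := by
    rw [hc4]
    exact_mod_cast c4'
  set t : ℝ := (Pool.Agent.N439.CT.turan k : ℝ) with ht
  set M : ℝ := (T.card : ℝ) with hM
  set b : ℝ := (bd.card : ℝ) with hbdef
  have hm : t * (n.choose k : ℝ) ≤ M * ((n - 3).choose (k - 3) : ℝ) +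
      t * (b * ((n - 4).choose (k - 4) : ℝ)) := by
    rw [ht, hM, hbdef]
    exact_mod_cast hmain
  have e3 : ((n - 3).choose (k - 3) : ℝ) = (n.choose k : ℝ) * (k.choose 3 : ℝ) / (n.choose 3 : ℝ) := by
    rw [eq_div_iff hN3.ne']
    linarith
  have e4 : ((n - 4).choose (k - 4) : ℝ) = (n.choose k : ℝ) * c4 / (n.choose 4 : ℝ) := by
    rw [eq_div_iff hN4.ne']
    linarith
  rw [e3, e4] at hm
  have ht0 : 0 ≤ t := Nat.cast_nonneg _
  have hb0 : 0 ≤ b := Nat.cast_nonneg _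
  have hm2 : t ≤ M * (k.choose 3 : ℝ) / (n.choose 3 : ℝ) + t * (b * c4 / (n.choose 4 : ℝ)) := by
    have : t * (n.choose k : ℝ) ≤ (M * (k.choose 3 : ℝ) / (n.choose 3 : ℝ) +
        t * (b * c4 / (n.choose 4 : ℝ))) * (n.choose k : ℝ) := by
      calc t * (n.choose k : ℝ) ≤ _ := hm
        _ = _ := by ring
    exact le_of_mul_le_mul_right this hNk
  have hb4 : b * c4 / (n.choose 4 : ℝ) ≤ ε := by
    rw [div_le_iff₀ hN4]
    have h1 := RT.choose_four hn12
    calc b * c4 ≤ (2 * η * (n : ℝ) ^ 4) * c4 := by gcongr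
      _ ≤ (2 * η * (48 * (n.choose 4 : ℝ))) * c4 := by gcongr
      _ = (96 * c4 * η) * (n.choose 4 : ℝ) := by ring
      _ ≤ ε * (n.choose 4 : ℝ) := by gcongr
  have htk : t ≤ 1 / 2 * (k.choose 3 : ℝ) := by
    rw [ht, hk]
    exact RT.turan_le s hs.2
  have ht2 := RT.turan_real ε s hs.2 hεs
  rw [← hk] at ht2
  have hx : (4 / 9 - ε) * (k.choose 3 : ℝ) ≤ M * (k.choose 3 : ℝ) / (n.choose 3 : ℝ) := by
    have h1 : t * (b * c4 / (n.choose 4 : ℝ)) ≤ (1 / 2 * (k.choose 3 : ℝ)) * ε := by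
      exact mul_le_mul htk hb4 (div_nonneg (mul_nonneg hb0 hc40.le) hN4.le)
        (mul_nonneg (by norm_num) hc30.le)
    nlinarith
  have h1 : (4 / 9 - ε) * (k.choose 3 : ℝ) ≤ (M / (n.choose 3 : ℝ)) * (k.choose 3 : ℝ) := by
    calc _ ≤ _ := hx
      _ = _ := by ring
  have h2 := le_of_mul_le_mul_right h1 hc30
  rwa [le_div_iff₀ hN3] at h2

/-- **The robust bound for the three kinds of colours.** -/
theorem robust3 (ε : ℝ) (hε : 0 < ε) : ∃ δ : ℝ, 0 < δ ∧ ∃ n₀ : ℕ, ∀ n : ℕ, n₀ ≤ n →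
    ∀ (R : Fin n → Fin n → Prop) (col χ : Fin n → Fin n → ℕ) (N : Set ℕ),
    (∀ x y, R x y → ¬ R y x) → (∀ x y, χ x y = χ y x) →
    ((unc R col χ N).card : ℝ) ≤ δ * (n : ℝ) ^ 4 → ((paths R χ N).card : ℝ) ≤ δ * (n : ℝ) ^ 4 →
    (4 / 9 - ε) * (n.choose 3 : ℝ) ≤ ((T3 R col χ N).card : ℝ) := by
  obtain ⟨η, hη0, hη1, n₀, h⟩ := averaged ε hε
  refine ⟨η ^ 2, by positivity, n₀, ?_⟩
  intro n hn R col χ N hR hs hu hp
  have hl : ((RT.lost (aux R χ N)).card : ℝ) ≤ η * (n : ℝ) ^ 3 := by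
    have h1 : ((RT.lost (aux R χ N)).card : ℝ) ^ 2 ≤
        (n : ℝ) ^ 2 * ((RT.monoPaths (aux R χ N)).card : ℝ) := by
      exact_mod_cast RT.lost_card (χ := aux R χ N) (aux_symm hs)
    have h2 : ((RT.monoPaths (aux R χ N)).card : ℝ) ≤ ((paths R χ N).card : ℝ) := by
      exact_mod_cast card_le_card (paths_sub hs)
    apply le_of_sq_le_sq _ (by positivity)
    calc ((RT.lost (aux R χ N)).card : ℝ) ^ 2
        ≤ (n : ℝ) ^ 2 * ((RT.monoPaths (aux R χ N)).card : ℝ) := h1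
      _ ≤ (n : ℝ) ^ 2 * (η ^ 2 * (n : ℝ) ^ 4) := by
          gcongr
          exact h2.trans hp
      _ = (η * (n : ℝ) ^ 3) ^ 2 := by ring
  have hb : ((bad R col χ N).card : ℝ) ≤ 2 * η * (n : ℝ) ^ 4 := by
    have h1 : ((bad R col χ N).card : ℝ) ≤
        ((unc R col χ N).card : ℝ) + ((RT.lost (aux R χ N)).card : ℝ) * n := by
      exact_mod_cast bad_card hs
    have h2 : η ^ 2 ≤ η := by nlinarith
    calc ((bad R col χ N).card : ℝ) ≤ _ := h1
      _ ≤ η ^ 2 * (n : ℝ) ^ 4 + η * (n : ℝ) ^ 3 * n := by gcongr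
      _ ≤ η * (n : ℝ) ^ 4 + η * (n : ℝ) ^ 3 * n := by gcongr
      _ = _ := by ring
  exact h n hn _ (bad R col χ N) (fun e he => (mem_T3.1 he).1) (fun Q hQ => (mem_bad.1 hQ).1)
    (fun S hS => on_good hR hs S hS) hb

end Pool.Agent.Run7.h804.MC
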